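import Pool.Agent.H47.RB.Exact

/-!
The (1:b) Maker-Breaker game on the aligned rectangle lattices of the `N × N` board: the exact
solution for every bias `b ≥ 1`.
-/

set_option autoImplicit false
set_option linter.unusedVariables false

namespace Pool.Agent.Results.MP_83bd6e_co.EveryBias

open Finset

/-- The `N × N` board. -/
def board (N : ℕ) : Finset (ℕ × ℕ) := Icc 1 N ×ˢ Icc 1 N

/-- A move is the set of the points claimed in it. A play `h` is the list of its moves; the moves
number `0, 2, 4, ...` are made by Maker and the moves number `1, 3, 5, ...` by Breaker.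
`unclaimed N h` is the set of the points of the board not claimed in `h`. -/
def unclaimed (N : ℕ) (h : List (Finset (ℕ × ℕ))) : Finset (ℕ × ℕ) :=
  (board N).filter (fun x => ∀ m ∈ h, x ∉ m)

/-- The number of points claimed in the move after `h`: one by Maker, `b` by Breaker. -/
def quota (b : ℕ) (h : List (Finset (ℕ × ℕ))) : ℕ := if h.length % 2 = 0 then 1 else b

/-- A legal move after `h` consists of `quota b h` unclaimed points or, if fewer points are
unclaimed, of all of them (at least one). -/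
def IsLegalMove (b N : ℕ) (h : List (Finset (ℕ × ℕ))) (m : Finset (ℕ × ℕ)) : Prop :=
  m ⊆ unclaimed N h ∧ m.card = min (quota b h) (unclaimed N h).card ∧ m.Nonempty

/-- All moves of `h` are legal. -/
def IsPlay (b N : ℕ) (h : List (Finset (ℕ × ℕ))) : Prop :=
  ∀ (i : ℕ) (hi : i < h.length), IsLegalMove b N (h.take i) (h[i]'hi)

/-- The player making the moves with number congruent to `p` modulo 2 follows `σ`: each of these
moves is the value of `σ` at the list of the earlier moves. -/
def Follows (p : ℕ) (σ : List (Finset (ℕ × ℕ)) → Finset (ℕ × ℕ))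
    (h : List (Finset (ℕ × ℕ))) : Prop :=
  ∀ (i : ℕ) (hi : i < h.length), i % 2 = p → h[i]'hi = σ (h.take i)

/-- `σ` is a strategy of this player (`p = 0`: Maker, `p = 1`: Breaker): it gives a legal move in
every position in which the player is to move and which can arise when he follows it. -/
def IsStrategy (b N p : ℕ) (σ : List (Finset (ℕ × ℕ)) → Finset (ℕ × ℕ)) : Prop :=
  ∀ h : List (Finset (ℕ × ℕ)), IsPlay b N h → Follows p σ h → h.length % 2 = p →
    (unclaimed N h).Nonempty → IsLegalMove b N h (σ h)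

/-- The point `x` was claimed by Maker in the play `h`. -/
def MakerOwns (h : List (Finset (ℕ × ℕ))) (x : ℕ × ℕ) : Prop :=
  ∃ (i : ℕ) (hi : i < h.length), i % 2 = 0 ∧ x ∈ h[i]'hi

/-- Maker owns all points of some `q × q` aligned rectangle lattice
`{(s + i x, t + j y) : 0 ≤ i, j ≤ q - 1}` with steps `x, y ≥ 1`. -/
def OwnsLattice (h : List (Finset (ℕ × ℕ))) (q : ℕ) : Prop :=
  ∃ s t x y : ℕ, 1 ≤ x ∧ 1 ≤ y ∧ ∀ i j : ℕ, i < q → j < q → MakerOwns h (s + i * x, t + j * y)

/-- Maker (who moves first) has a strategy with which, at the end of every play, he owns all points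
of some `q × q` aligned rectangle lattice. -/
def MakerWins (b N q : ℕ) : Prop :=
  ∃ σ : List (Finset (ℕ × ℕ)) → Finset (ℕ × ℕ), IsStrategy b N 0 σ ∧
    ∀ h : List (Finset (ℕ × ℕ)), IsPlay b N h → Follows 0 σ h → unclaimed N h = ∅ →
      OwnsLattice h q

/-- Breaker has a strategy with which, at the end of every play, Maker does not own all points of a
`q × q` aligned rectangle lattice. -/
def BreakerWins (b N q : ℕ) : Prop :=
  ∃ τ : List (Finset (ℕ × ℕ)) → Finset (ℕ × ℕ), IsStrategy b N 1 τ ∧
    ∀ h : List (Finset (ℕ × ℕ)), IsPlay b N h → Follows 1 τ h → unclaimed N h = ∅ →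
      ¬ OwnsLattice h q

lemma makerWins_iff (b N q : ℕ) : MakerWins b N q ↔ Pool.Agent.H47.RB.MakerWins b N q := Iff.rfl

lemma breakerWins_iff (b N q : ℕ) :
    BreakerWins b N q ↔ Pool.Agent.H47.RB.BreakerWins b N q := Iff.rfl

/-- **Exact solution of the (1:b) game on aligned rectangle lattices, for every `b ≥ 1`.**
(1) There is a sequence `e N → 0` such that for all large `N` the largest `q ≥ 2` for which Maker
has a winning strategy is `⌊√(2 log N / log (b + 1)) + e N⌋`, i.e.
`A_{1:b}(N) = ⌊√(2 log_{b+1} N) + o(1)⌋`; for `b = 2` this is the question.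
(2) In detail: for every `ε > 0` and all large `N`, Maker has a winning strategy for all
`q ≤ √(2 log_{b+1} N) - ε`, and for all `q ≥ √(2 log_{b+1} N) + ε` Breaker has a strategy which
prevents every `q × q` aligned rectangle lattice (so Maker has no winning strategy). -/
theorem result (b : ℕ) (hb : 1 ≤ b) :
    (∃ e : ℕ → ℝ, Filter.Tendsto e Filter.atTop (nhds 0) ∧
      ∀ᶠ N : ℕ in Filter.atTop, IsGreatest {q : ℕ | 2 ≤ q ∧ MakerWins b N q}
        ⌊Real.sqrt (2 * Real.logb ((b : ℝ) + 1) N) + e N⌋₊) ∧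
    (∀ ε : ℝ, 0 < ε → ∃ N₀ : ℕ, ∀ N : ℕ, N₀ ≤ N → ∀ q : ℕ,
      ((q : ℝ) ≤ Real.sqrt (2 * Real.logb ((b : ℝ) + 1) N) - ε → MakerWins b N q) ∧
      (Real.sqrt (2 * Real.logb ((b : ℝ) + 1) N) + ε ≤ q →
        BreakerWins b N q ∧ ¬ MakerWins b N q)) := by
  refine ⟨Pool.Agent.H47.RB.exact b hb, fun ε hε => ?_⟩
  obtain ⟨N₁, h1⟩ := Pool.Agent.H47.RB.maker_half b hb ε hε
  obtain ⟨N₂, h2⟩ := Pool.Agent.H47.RB.breaker_half b hb ε hε
  refine ⟨max N₁ N₂, fun N hN q => ⟨fun hq => ?_, fun hq => ?_⟩⟩
  · exact h1 N ((le_max_left _ _).trans hN) q hq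
  · have h3 := h2 N ((le_max_right _ _).trans hN) q hq
    exact ⟨h3, fun h4 => Pool.Agent.H47.RB.not_both h4 h3⟩

end Pool.Agent.Results.MP_83bd6e_co.EveryBias
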